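import Pool.Agent.W586.GZ.Stm

set_option autoImplicit false

/-! Project GZ: exact pairs off the support. -/

namespace Pool.Agent.W54.GZ

open Pool.Agent.W586.GZ

/-- the interval containing a point -/
theorem find_l (c : ℕ → ℕ) (n j : ℕ) (h0 : c 0 ≤ j) (hn : j < c n) :
    ∃ l, l < n ∧ c l ≤ j ∧ j < c (l + 1) := by
  induction n with
  | zero => omega
  | succ n ih =>
    by_cases h : j < c n
    · obtain ⟨l, hl, h1⟩ := ih h
      exact ⟨l, by omega, h1⟩
    · exact ⟨n, by omega, by omega, hn⟩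

theorem uniq_l (c : ℕ → ℕ) (hc : StrictMono c) {l l' j : ℕ} (h1 : c l ≤ j) (h2 : j < c (l + 1))
    (h3 : c l' ≤ j) (h4 : j < c (l' + 1)) : l = l' := by
  have a1 : l < l' + 1 := hc.lt_iff_lt.1 (lt_of_le_of_lt h1 h4)
  have a2 : l' < l + 1 := hc.lt_iff_lt.1 (lt_of_le_of_lt h3 h2)
  omega

/-- the number of the interval -/
def kap (c : ℕ → ℕ) (n i : ℕ) : ℕ := ((Finset.range n).filter (fun l => c (l + 1) ≤ i)).card

theorem kap_eq (c : ℕ → ℕ) (hc : StrictMono c) (n i l : ℕ) (hl : l < n) (h1 : c l ≤ i)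
    (h2 : i < c (l + 1)) : kap c n i = l := by
  unfold kap
  have : (Finset.range n).filter (fun l => c (l + 1) ≤ i) = Finset.range l := by
    ext k
    rw [Finset.mem_filter, Finset.mem_range, Finset.mem_range]
    constructor
    · rintro ⟨_, h⟩
      have : k + 1 < l + 1 := hc.lt_iff_lt.1 (lt_of_le_of_lt h h2)
      omega
    · intro h
      have : c (k + 1) ≤ c l := hc.monotone (by omega)
      exact ⟨by omega, by omega⟩
  rw [this, Finset.card_range]

theorem main : S_SEL → S_EXV → S_PAIR := by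
  intro hsel hexv P t δ hS q M0 hq
  obtain ⟨c, J, x, hc0, hcm, hJ, hR, hx, hQ⟩ := hsel P
    (fun a b x => ∃ φ ∈ WW P, (∀ n, φ n ≠ 0 → a ≤ n ∧ n < b) ∧ (∀ n, φ n ≠ 0 → x n = 0) ∧
      δ ≤ ev φ (mv t (Finset.Ico a b) x))
    (by
      intro N0 M0
      obtain ⟨N, M1, x, φ, h1, h2, h3, h4, h5, h6, h7, h8⟩ := hS N0 M0
      exact ⟨N, M1, x, h1, h2, h3, h4, φ, h5, h6, h7, h8⟩) M0 q
  choose φ hφW hφs hφx hφδ using hQ
  choose w hw using hφW
  have hnpos : 1 ≤ P.n (2 * q) := P.n0.trans (P.nlt.monotone (Nat.zero_le _))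
  have hmpos : (0 : ℝ) < P.m (2 * q) := P.mpos' _
  set n := P.n (2 * q) with hn
  have hnR : (0 : ℝ) < n := by exact_mod_cast hnpos
  set y : ℕ → ℝ := fun k => (P.m (2 * q) : ℝ) / n * ∑ l ∈ Finset.range n, x l k with hy
  set f : ℕ →₀ ℚ := ((P.m (2 * q) : ℚ)⁻¹) • ∑ l ∈ Finset.range n, φ l with hf
  have hfs : ∀ k, f k ≠ 0 → ∃ l, l < n ∧ φ l k ≠ 0 := by
    intro k hk
    rw [hf, Finsupp.smul_apply, Finsupp.finsetSum_apply, smul_eq_mul] at hk
    obtain ⟨l, hl, hne⟩ := Finset.exists_ne_zero_of_sum_ne_zero (right_ne_zero_of_mul hk)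
    exact ⟨l, Finset.mem_range.mp hl, hne⟩
  have hys : ∀ k, y k ≠ 0 → ∃ l, l < n ∧ x l k ≠ 0 := by
    intro k hk
    obtain ⟨l, hl, hne⟩ := Finset.exists_ne_zero_of_sum_ne_zero (right_ne_zero_of_mul hk)
    exact ⟨l, Finset.mem_range.mp hl, hne⟩
  have hint : ∀ l, l < n → ∀ k, c l ≤ k → k < c (l + 1) → M0 ≤ k ∧ k < c n := by
    intro l hl k h1 h2
    have a1 : c 0 ≤ c l := hcm.monotone (Nat.zero_le _)
    have a2 : c (l + 1) ≤ c n := hcm.monotone (by omega)
    omega
  have hyl : ∀ l, l < n → ∀ k, c l ≤ k → k < c (l + 1) →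
      y k = (P.m (2 * q) : ℝ) / n * x l k := by
    intro l hl k h1 h2
    simp only [hy]
    rw [Finset.sum_eq_single_of_mem l (Finset.mem_range.mpr hl)]
    intro l' _ hne
    by_contra h
    have h3 := hx l' k h
    exact hne (uniq_l c hcm h3.1 h3.2 h1 h2)
  refine ⟨c n, y, f, kap c n, ?_, hexv P q J x hq (hR _) hJ, ?_, ?_, ?_, ?_, ?_⟩
  · rw [← hc0]; exact hcm (by omega)
  · refine W.even q n φ w le_rfl (fun i _ => hw i) ?_
    intro i l hil _ p r hp hr
    have h1 := hφs i p hp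
    have h2 := hφs l r hr
    have h3 : c (i + 1) ≤ c l := hcm.monotone (by omega)
    omega
  · intro k hk
    obtain ⟨l, hl, h⟩ := hys k hk
    exact hint l hl k (hx l k h).1 (hx l k h).2
  · intro k hk
    obtain ⟨l, hl, h⟩ := hfs k hk
    exact hint l hl k (hφs l k h).1 (hφs l k h).2
  · intro k hk
    obtain ⟨l, hl, h⟩ := hfs k hk
    rw [hyl l hl k (hφs l k h).1 (hφs l k h).2, hφx l k h, mul_zero]
  · rw [hf, ev_smul, ev_sum]
    have key : ∀ l ∈ Finset.range n, (P.m (2 * q) : ℝ) / n * δ ≤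
        ev (φ l) (mv (blk (kap c n) t) (Finset.Ico M0 (c n)) y) := by
      intro l hl
      have hl' := Finset.mem_range.mp hl
      have h1 : ev (φ l) (mv (blk (kap c n) t) (Finset.Ico M0 (c n)) y) =
          ev (φ l) (fun i => (P.m (2 * q) : ℝ) / n *
            mv t (Finset.Ico (c l) (c (l + 1))) (x l) i) := by
        apply ev_congr
        intro i hi
        congr 1
        obtain ⟨hi1, hi2⟩ := hφs l i hi
        have hi3 := hint l hl' i hi1 hi2
        rw [mv_apply_of_mem _ _ _ i (Finset.mem_Ico.2 hi3),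
          mv_apply_of_mem _ _ _ i (Finset.mem_Ico.2 ⟨hi1, hi2⟩), Finset.mul_sum]
        have hsub : Finset.Ico (c l) (c (l + 1)) ⊆ Finset.Ico M0 (c n) := by
          intro k hk
          rw [Finset.mem_Ico] at hk ⊢
          exact hint l hl' k hk.1 hk.2
        rw [← Finset.sum_subset hsub]
        · apply Finset.sum_congr rfl
          intro k hk
          rw [Finset.mem_Ico] at hk
          unfold blk
          rw [if_pos (by rw [kap_eq c hcm n i l hl' hi1 hi2, kap_eq c hcm n k l hl' hk.1 hk.2]),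
            hyl l hl' k hk.1 hk.2]
          ring
        · intro k hk1 hk2
          rw [Finset.mem_Ico] at hk1 hk2
          obtain ⟨l', hl1, hl2, hl3⟩ := find_l c n k (by rw [hc0]; exact hk1.1) hk1.2
          unfold blk
          rw [if_neg, zero_mul]
          rw [kap_eq c hcm n i l hl' hi1 hi2, kap_eq c hcm n k l' hl1 hl2 hl3]
          intro h
          subst h
          exact hk2 ⟨hl2, hl3⟩
      rw [h1, ev_smul_right, abs_of_pos (div_pos hmpos hnR)]
      exact mul_le_mul_of_nonneg_left (hφδ l) (div_pos hmpos hnR).le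
    have h2 := Finset.sum_le_sum key
    rw [Finset.sum_const, Finset.card_range, nsmul_eq_mul] at h2
    push_cast
    have h3 : δ = ((P.m (2 * q) : ℝ))⁻¹ * ((n : ℝ) * ((P.m (2 * q) : ℝ) / n * δ)) := by
      field_simp
    rw [h3]
    exact mul_le_mul_of_nonneg_left h2 (inv_nonneg.2 hmpos.le)

end Pool.Agent.W54.GZ
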